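import Pool.Agent.H67.RF.Core

/-!
# Chains of subgroups (helper67, MP_335823_al)
-/

set_option autoImplicit false

open scoped commutatorElement

namespace Pool.Agent.H67.RF

/-- the derived subgroup of a relatively free group with periodic derived subgroup -/
theorem pr_of_relfree (G : Type*) [Group G] (X : Set G) (hX : Subgroup.closure X = ⊤)
    (hrf : ∀ f : X → G, ∃ φ : G →* G, ∀ x : X, φ (x : G) = f x)
    (hper : ∀ g ∈ commutator G, IsOfFinOrder g) :
    ∃ m : ℕ, Pr (commutator G) m := by
  classical
  by_cases hsub : X.Subsingleton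
  · -- then `G` is cyclic
    have hcyc : ∀ a b : G, a * b = b * a := by
      intro a b
      have hXc : ∀ x ∈ X, ∀ y ∈ X, x * y = y * x := by
        intro x hx y hy
        rw [hsub hx hy]
      have ha : a ∈ Subgroup.closure X := by
        rw [hX]
        trivial
      have hb : b ∈ Subgroup.closure X := by
        rw [hX]
        trivial
      have h1 := Subgroup.closure_induction₂ (p := fun x y _ _ => x * y = y * x) (k := X)
        (fun x y hx hy => hXc x hx y hy) (fun _ _ => by simp) (fun _ _ => by simp)
        (fun x y z _ _ _ h1 h2 => Commute.mul_left (show Commute x z from h1) h2)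
        (fun x y z _ _ _ h1 h2 => Commute.mul_right (show Commute z x from h1) h2)
        (fun x y _ _ h => by
          show x⁻¹ * y = y * x⁻¹
          exact (Commute.inv_left (show Commute x y from h)).eq)
        (fun x y _ _ h => by
          show x * y⁻¹ = y⁻¹ * x
          exact (Commute.inv_right (show Commute x y from h)).eq) ha hb
      exact h1
    have htriv : ∀ g : commutator G, g = 1 := by
      intro g
      have h1 : commutator G = ⊥ := by
        rw [commutator_def, Subgroup.commutator_eq_bot_iff_le_centralizer]
        intro a _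
        rw [Subgroup.mem_centralizer_iff]
        intro b _
        exact hcyc b a
      have h2 : (g : G) ∈ (⊥ : Subgroup G) := by
        rw [← h1]
        exact g.2
      exact Subtype.ext (Subgroup.mem_bot.1 h2)
    refine ⟨1, ⟨one_pos, ?_, ?_, ?_⟩⟩
    · rw [eq_top_iff]
      intro g _
      rw [htriv g]
      exact Subgroup.one_mem _
    · intro g h
      exact htriv _
    · intro e _
      exact ⟨1, one_pos, fun g h => htriv _⟩
  · rw [Set.not_subsingleton_iff] at hsub
    obtain ⟨x, hx, y, hy, hxy⟩ := hsub
    have hmap : ∀ a b : G, ∃ φ : G →* G, φ x = a ∧ φ y = b := by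
      intro a b
      obtain ⟨φ, hφ⟩ := hrf (fun z => if (z : G) = x then a else b)
      refine ⟨φ, ?_, ?_⟩
      · have := hφ ⟨x, hx⟩
        simpa using this
      · have := hφ ⟨y, hy⟩
        have hne : y ≠ x := fun h => hxy h.symm
        simpa [hne] using this
    have hcm : ∀ a b : G, ⁅a, b⁆ ∈ commutator G := fun a b =>
      Subgroup.commutator_mem_commutator (Subgroup.mem_top a) (Subgroup.mem_top b)
    obtain ⟨m, hm, h1⟩ := (isOfFinOrder_iff_pow_eq_one.1 (hper _ (hcm x y)))
    have h2 : ∀ a b : G, ⁅a, b⁆ ^ m = 1 := by
      intro a b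
      obtain ⟨φ, rfl, rfl⟩ := hmap a b
      rw [← map_commutatorElement, ← map_pow, h1, map_one]
    have hw : ∀ (e : ℕ) (g h : G), (g * h) ^ e * (h ^ e)⁻¹ * (g ^ e)⁻¹ ∈ commutator G := by
      intro e g h
      have h3 : Abelianization.of ((g * h) ^ e * (h ^ e)⁻¹ * (g ^ e)⁻¹) = 1 := by
        rw [map_mul, map_mul, map_inv, map_inv, map_pow, map_pow, map_pow, map_mul, mul_pow]
        rw [mul_assoc (Abelianization.of g ^ e), mul_inv_cancel, mul_one, mul_inv_cancel]
      exact (QuotientGroup.eq_one_iff _).1 h3
    refine ⟨m, ⟨hm, ?_, ?_, ?_⟩⟩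
    · rw [eq_top_iff]
      rintro ⟨g, hg⟩ _
      have hg' := hg
      rw [commutator_def, Subgroup.commutator_def] at hg'
      have key : ∀ g : G, ∀ _ : g ∈ Subgroup.closure
          {z | ∃ g₁ ∈ (⊤ : Subgroup G), ∃ g₂ ∈ (⊤ : Subgroup G), ⁅g₁, g₂⁆ = z},
          ∀ hg : g ∈ commutator G,
          (⟨g, hg⟩ : commutator G) ∈ Subgroup.closure {s : commutator G | s ^ m = 1} := by
        intro g hg1
        induction hg1 using Subgroup.closure_induction with
        | mem z hz =>
          intro hz'
          obtain ⟨a, _, b, _, rfl⟩ := hz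
          refine Subgroup.subset_closure ?_
          exact Subtype.ext (h2 a b)
        | one =>
          intro h
          exact Subgroup.one_mem _
        | mul a b ha hb iha ihb =>
          intro h
          have ha' : a ∈ commutator G := by
            rw [commutator_def, Subgroup.commutator_def]
            exact ha
          have hb' : b ∈ commutator G := by
            rw [commutator_def, Subgroup.commutator_def]
            exact hb
          exact Subgroup.mul_mem _ (iha ha') (ihb hb')
        | inv a ha iha =>
          intro h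
          have ha' : a ∈ commutator G := by
            rw [commutator_def, Subgroup.commutator_def]
            exact ha
          exact Subgroup.inv_mem _ (iha ha')
      exact key g hg' hg
    · intro g h
      exact Subtype.ext (h2 g h)
    · intro e _
      obtain ⟨n, hn, h4⟩ := isOfFinOrder_iff_pow_eq_one.1 (hper _ (hw e x y))
      refine ⟨n, hn, ?_⟩
      rintro ⟨g, hg⟩ ⟨h, hh⟩
      refine Subtype.ext ?_
      show ((g * h) ^ e * (h ^ e)⁻¹ * (g ^ e)⁻¹) ^ n = 1
      obtain ⟨φ, rfl, rfl⟩ := hmap g h
      have h5 := congrArg φ h4
      simpa using h5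

/-- the chain theorem -/
theorem chain {G : Type*} [Group G] {m : ℕ} (hP : Pr (commutator G) m) (k : ℕ)
    (N : ℕ → Subgroup G) (h0 : commutator G ≤ N 0)
    (hN : ∀ i < k, (∃ e : ℕ, 0 < e ∧ ∀ a ∈ N i, a ^ e ∈ N (i + 1)) ∨
      ∃ c : ℕ, ∀ a ∈ N i, ∀ b ∈ N i,
        (Subgroup.closure {a, b}).lowerCentralSeries c ≤ N (i + 1)) :
    ∃ n : ℕ, 0 < n ∧ ∀ g ∈ commutator G, g ^ n ∈ N k := by
  have key : ∀ i ≤ k, ∃ M : Subgroup (commutator G), M.Normal ∧
      (∀ a ∈ M, (a : G) ∈ N i) ∧ Fe M := by
    intro i
    induction i with
    | zero =>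
      intro _
      exact ⟨⊤, inferInstance, fun a _ => h0 a.2, 1, one_pos, fun g => Subgroup.mem_top _⟩
    | succ i ih =>
      intro hi
      obtain ⟨M, hM, hMN, hF⟩ := ih (by omega)
      rcases hN i (by omega) with ⟨e, he, hpow⟩ | ⟨c, hc⟩
      · refine ⟨Subgroup.closure {z | ∃ a ∈ M, a ^ e = z}, ?_, ?_, ?_⟩
        · refine ⟨fun n hn g => ?_⟩
          induction hn using Subgroup.closure_induction with
          | mem z hz =>
            obtain ⟨a, ha, rfl⟩ := hz
            refine Subgroup.subset_closure ⟨g * a * g⁻¹, hM.conj_mem a ha g, ?_⟩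
            rw [conj_pow]
          | one => simp
          | mul a b _ _ ha hb =>
            have : g * (a * b) * g⁻¹ = (g * a * g⁻¹) * (g * b * g⁻¹) := by group
            rw [this]
            exact Subgroup.mul_mem _ ha hb
          | inv a _ ha =>
            have : g * a⁻¹ * g⁻¹ = (g * a * g⁻¹)⁻¹ := by group
            rw [this]
            exact Subgroup.inv_mem _ ha
        · intro a ha
          induction ha using Subgroup.closure_induction with
          | mem z hz =>
            obtain ⟨a, ha, rfl⟩ := hz
            exact hpow _ (hMN a ha)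
          | one => exact (N (i + 1)).one_mem
          | mul a b _ _ ha hb => exact (N (i + 1)).mul_mem ha hb
          | inv a _ ha => exact (N (i + 1)).inv_mem ha
        · obtain ⟨e', he', h1⟩ := hF
          refine ⟨e' * e, by positivity, fun g => ?_⟩
          exact Subgroup.subset_closure ⟨g ^ e', h1 g, (pow_mul g e' e).symm⟩
      · set U : Set (commutator G) :=
          {z | ∃ a ∈ M, ∃ b ∈ M, z ∈ (Subgroup.closure {a, b}).lowerCentralSeries c} with hU
        have hMn : (Subgroup.closure U).Normal := by
          refine ⟨fun n hn g => ?_⟩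
          induction hn using Subgroup.closure_induction with
          | mem z hz =>
            obtain ⟨a, ha, b, hb, hz⟩ := hz
            refine Subgroup.subset_closure ⟨g * a * g⁻¹, hM.conj_mem a ha g, g * b * g⁻¹,
              hM.conj_mem b hb g, ?_⟩
            have h1 : Subgroup.closure {g * a * g⁻¹, g * b * g⁻¹} =
                (Subgroup.closure {a, b}).map (MulAut.conj g).toMonoidHom := by
              rw [MonoidHom.map_closure, Set.image_pair]
              rfl
            rw [h1, ← Subgroup.map_lowerCentralSeries]
            exact ⟨z, hz, rfl⟩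
          | one => simp
          | mul a b _ _ ha hb =>
            have : g * (a * b) * g⁻¹ = (g * a * g⁻¹) * (g * b * g⁻¹) := by group
            rw [this]
            exact Subgroup.mul_mem _ ha hb
          | inv a _ ha =>
            have : g * a⁻¹ * g⁻¹ = (g * a * g⁻¹)⁻¹ := by group
            rw [this]
            exact Subgroup.inv_mem _ ha
        refine ⟨Subgroup.closure U, hMn, ?_, ?_⟩
        · intro z hz
          induction hz using Subgroup.closure_induction with
          | mem z hz =>
            obtain ⟨a, ha, b, hb, hz⟩ := hz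
            have h1 : (z : G) ∈ (Subgroup.closure {(a : G), (b : G)}).lowerCentralSeries c := by
              have h2 : Subgroup.closure {(a : G), (b : G)} =
                  (Subgroup.closure {a, b}).map (commutator G).subtype := by
                rw [MonoidHom.map_closure, Set.image_pair]
                rfl
              rw [h2, ← Subgroup.map_lowerCentralSeries]
              exact ⟨z, hz, rfl⟩
            exact hc _ (hMN a ha) _ (hMN b hb) h1
          | one => exact (N (i + 1)).one_mem
          | mul a b _ _ ha hb => exact (N (i + 1)).mul_mem ha hb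
          | inv a _ ha => exact (N (i + 1)).inv_mem ha
        · exact fe_nil hP M (Subgroup.closure U) hM hMn c
            (fun a ha b hb z hz => Subgroup.subset_closure ⟨a, ha, b, hb, hz⟩) hF
  obtain ⟨M, _, hM, n, hn, h1⟩ := key k le_rfl
  exact ⟨n, hn, fun g hg => hM _ (h1 ⟨g, hg⟩)⟩

end Pool.Agent.H67.RF
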