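import Pool.Agent.H67.RF.Nil

/-!
# Periodic commutator subgroups of relatively free groups: the power map modulo a central subgroup
(helper67, MP_335823_al)
-/

set_option autoImplicit false

open scoped commutatorElement

namespace Pool.Agent.H67.RF

/-- `H` is generated by elements of order dividing `m`, all commutators of `H` have order dividing
`m`, and for every `e` the elements `(gh)^e h^(-e) g^(-e)` have bounded order. -/
structure Pr (H : Type*) [Group H] (m : ℕ) : Prop where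
  pos : 0 < m
  gen : Subgroup.closure {s : H | s ^ m = 1} = ⊤
  comm : ∀ g h : H, ⁅g, h⁆ ^ m = 1
  pw : ∀ e : ℕ, 0 < e → ∃ n : ℕ, 0 < n ∧
    ∀ g h : H, ((g * h) ^ e * (h ^ e)⁻¹ * (g ^ e)⁻¹) ^ n = 1

theorem Pr.map {H K : Type*} [Group H] [Group K] {m : ℕ} (hH : Pr H m) (f : H →* K)
    (hf : Function.Surjective f) : Pr K m where
  pos := hH.pos
  gen := by
    rw [eq_top_iff]
    intro y _
    obtain ⟨x, rfl⟩ := hf y
    have hx : x ∈ Subgroup.closure {s : H | s ^ m = 1} := by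
      rw [hH.gen]
      trivial
    have h1 : f x ∈ (Subgroup.closure {s : H | s ^ m = 1}).map f := ⟨x, hx, rfl⟩
    rw [MonoidHom.map_closure] at h1
    refine Subgroup.closure_mono ?_ h1
    rintro _ ⟨s, hs, rfl⟩
    show f s ^ m = 1
    rw [← map_pow, show s ^ m = 1 from hs, map_one]
  comm := by
    intro g h
    obtain ⟨a, rfl⟩ := hf g
    obtain ⟨b, rfl⟩ := hf h
    rw [← map_commutatorElement, ← map_pow, hH.comm, map_one]
  pw := by
    intro e he
    obtain ⟨n, hn, h1⟩ := hH.pw e he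
    refine ⟨n, hn, ?_⟩
    intro g h
    obtain ⟨a, rfl⟩ := hf g
    obtain ⟨b, rfl⟩ := hf h
    have h2 := congrArg f (h1 a b)
    simpa using h2

/-- the central case: no local finiteness is needed -/
theorem central_case {H : Type*} [Group H] {m : ℕ} (hH : Pr H m) (Z : Subgroup H)
    (hZ : ∀ z ∈ Z, ∀ h : H, z * h = h * z) {e : ℕ} (he : 0 < e) (hpow : ∀ g : H, g ^ e ∈ Z) :
    ∃ M : ℕ, 0 < M ∧ ∀ g : H, g ^ M = 1 := by
  obtain ⟨n, hn, h1⟩ := hH.pw e he
  have hmul : ∀ g h : H, (g * h) ^ (e * n * m) = g ^ (e * n * m) * h ^ (e * n * m) := by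
    intro g h
    set w := (g * h) ^ e * (h ^ e)⁻¹ * (g ^ e)⁻¹ with hw
    have h2 : (g * h) ^ e = w * (g ^ e * h ^ e) := by
      rw [hw]
      group
    have hwZ : w ∈ Z := Z.mul_mem (Z.mul_mem (hpow _) (Z.inv_mem (hpow _))) (Z.inv_mem (hpow _))
    have hc1 : Commute w (g ^ e * h ^ e) := hZ w hwZ _
    have hc2 : Commute (g ^ e) (h ^ e) := hZ _ (hpow g) _
    have h3 : (g * h) ^ (e * n) = g ^ (e * n) * h ^ (e * n) := by
      rw [pow_mul, h2, hc1.mul_pow, h1 g h, one_mul, hc2.mul_pow, ← pow_mul, ← pow_mul]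
    have hc3 : Commute (g ^ (e * n)) (h ^ (e * n)) := by
      rw [pow_mul, pow_mul]
      exact hc2.pow_pow n n
    rw [pow_mul, h3, hc3.mul_pow, ← pow_mul, ← pow_mul]
  refine ⟨e * n * m, by have := hH.pos; positivity, ?_⟩
  let f : H →* H :=
    { toFun := fun g => g ^ (e * n * m)
      map_one' := one_pow _
      map_mul' := hmul }
  have h4 : (⊤ : Subgroup H) ≤ f.ker := by
    rw [← hH.gen, Subgroup.closure_le]
    intro s hs
    show s ^ (e * n * m) = 1
    rw [mul_comm, pow_mul, show s ^ m = 1 from hs, one_pow]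
  intro g
  exact h4 (Subgroup.mem_top g)

/-- `N` has a quotient of finite exponent -/
def Fe {H : Type*} [Group H] (N : Subgroup H) : Prop := ∃ e : ℕ, 0 < e ∧ ∀ g : H, g ^ e ∈ N

theorem fe_comm_top {H : Type*} [Group H] {m : ℕ} (hH : Pr H m) (N : Subgroup H) (hN : N.Normal)
    (h : Fe N) : Fe ⁅N, (⊤ : Subgroup H)⁆ := by
  obtain ⟨e, he, hpow⟩ := h
  set B : Subgroup H := ⁅N, (⊤ : Subgroup H)⁆ with hB
  have hBn : B.Normal := Subgroup.commutator_normal N ⊤
  have hq : Pr (H ⧸ B) m := hH.map (QuotientGroup.mk' B) (QuotientGroup.mk'_surjective B)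
  obtain ⟨M, hM, h2⟩ := central_case hq (N.map (QuotientGroup.mk' B)) (by
    rintro _ ⟨a, ha, rfl⟩ y
    obtain ⟨g, rfl⟩ := QuotientGroup.mk'_surjective B y
    rw [← map_mul, ← map_mul]
    refine (QuotientGroup.eq_iff_div_mem (N := B)).2 ?_
    have h3 : a * g / (g * a) = ⁅a, g⁆ := by
      rw [commutatorElement_def, div_eq_mul_inv, mul_inv_rev, ← mul_assoc]
    rw [h3]
    exact Subgroup.commutator_mem_commutator ha (Subgroup.mem_top g)) he (by
    intro y
    obtain ⟨g, rfl⟩ := QuotientGroup.mk'_surjective B y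
    rw [← map_pow]
    exact ⟨g ^ e, hpow g, rfl⟩)
  refine ⟨M, hM, fun g => ?_⟩
  have h5 := h2 (QuotientGroup.mk' B g)
  rw [← map_pow] at h5
  exact (QuotientGroup.eq_one_iff _).1 h5

theorem fe_map {H K : Type*} [Group H] [Group K] (f : H →* K) (hf : Function.Surjective f)
    (N : Subgroup H) (h : Fe N) : Fe (N.map f) := by
  obtain ⟨e, he, hpow⟩ := h
  refine ⟨e, he, fun y => ?_⟩
  obtain ⟨g, rfl⟩ := hf y
  exact ⟨g ^ e, hpow g, map_pow f g e⟩

/-- powers in a subgroup whose two-generator subgroups are nilpotent of class at most `c` -/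
theorem two_gen {Q : Type*} [Group Q] {m : ℕ} (hc : ∀ a b : Q, ⁅a, b⁆ ^ m = 1) (c : ℕ) (x y : Q)
    (hS : (Subgroup.closure {x, y}).lowerCentralSeries c = ⊥) :
    Commute (x ^ (m ^ c)) y ∧
      (x * y) ^ (m ^ c * m ^ c) = x ^ (m ^ c * m ^ c) * y ^ (m ^ c * m ^ c) := by
  set S : Subgroup Q := Subgroup.closure {x, y} with hSd
  have hx : x ∈ S := Subgroup.subset_closure (by simp)
  have hy : y ∈ S := Subgroup.subset_closure (by simp)
  have hcS : ∀ a b : S, ⁅a, b⁆ ^ m = 1 := fun a b => Subtype.ext (hc a b)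
  have hn : (⊤ : Subgroup S).lowerCentralSeries c = ⊥ := by
    have h1 := Subgroup.top_subtype_lowerCentralSeries S c
    rw [hS] at h1
    exact (Subgroup.map_eq_bot_iff_of_injective _ S.subtype_injective).1 h1
  obtain ⟨h2, h3⟩ := nil_pow hcS c hn
  refine ⟨?_, ?_⟩
  · have h4 := h2 ⟨x, hx⟩ ⟨y, hy⟩
    exact congrArg (fun z : S => (z : Q)) h4
  · exact congrArg (fun z : S => (z : Q)) (h3 ⟨x, hx⟩ ⟨y, hy⟩)

/-- the nilpotent step -/
theorem fe_nil {H : Type*} [Group H] {m : ℕ} (hH : Pr H m) (N M : Subgroup H) (hN : N.Normal)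
    (hM : M.Normal) (c : ℕ)
    (h : ∀ a ∈ N, ∀ b ∈ N, (Subgroup.closure {a, b}).lowerCentralSeries c ≤ M) (hF : Fe N) :
    Fe M := by
  set π : H →* H ⧸ M := QuotientGroup.mk' M with hπ
  have hsur : Function.Surjective π := QuotientGroup.mk'_surjective M
  have hq : Pr (H ⧸ M) m := hH.map π hsur
  have hNn : (N.map π).Normal := hN.map _ hsur
  obtain ⟨t, ht, hB⟩ := fe_comm_top hq (N.map π) hNn (fe_map π hsur N hF)
  have hbot : ∀ x ∈ N.map π, ∀ y ∈ N.map π,
      (Subgroup.closure {x, y}).lowerCentralSeries c = ⊥ := by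
    rintro _ ⟨a, ha, rfl⟩ _ ⟨b, hb, rfl⟩
    have h1 : Subgroup.closure {π a, π b} = (Subgroup.closure {a, b}).map π := by
      rw [MonoidHom.map_closure, Set.image_pair]
    rw [h1, ← Subgroup.map_lowerCentralSeries, eq_bot_iff]
    refine (Subgroup.map_mono (h a ha b hb)).trans ?_
    rintro _ ⟨z, hz, rfl⟩
    exact Subgroup.mem_bot.2 ((QuotientGroup.eq_one_iff z).2 hz)
  set T := m ^ c * m ^ c with hT
  have key : ∀ z ∈ ⁅N.map π, (⊤ : Subgroup (H ⧸ M))⁆, z ^ (T * m) = 1 ∧ z ∈ N.map π := by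
    intro z hz
    rw [Subgroup.commutator_def] at hz
    induction hz using Subgroup.closure_induction with
    | mem x hx =>
      obtain ⟨a, ha, g, hg, rfl⟩ := hx
      refine ⟨by rw [mul_comm, pow_mul, hq.comm, one_pow], ?_⟩
      exact Subgroup.commutator_le_left (N.map π) ⊤ (Subgroup.commutator_mem_commutator ha hg)
    | one => exact ⟨one_pow _, one_mem _⟩
    | mul x y _ _ hx hy =>
      refine ⟨?_, mul_mem hx.2 hy.2⟩
      obtain ⟨h2, h3⟩ := two_gen hq.comm c x y (hbot x hx.2 y hy.2)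
      have h4 : Commute (x ^ T) (y ^ T) := by
        rw [hT, pow_mul, pow_mul]
        exact (h2.pow_left _).pow_right _ |>.pow_right _
      rw [pow_mul, hT, h3, ← hT, h4.mul_pow, ← pow_mul, ← pow_mul, hx.1, hy.1, one_mul]
    | inv x _ hx => exact ⟨by rw [inv_pow, hx.1, inv_one], inv_mem hx.2⟩
  have hm := hH.pos
  refine ⟨t * (T * m), by positivity, fun g => ?_⟩
  have h5 := (key _ (hB (π g))).1
  rw [← pow_mul, ← map_pow] at h5
  exact (QuotientGroup.eq_one_iff _).1 h5

end Pool.Agent.H67.RF
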