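import Pool.Agent.H91.RF.TargetsA
import Pool.Agent.H91.RF.TargetsR
import Pool.Agent.H90.RD.Line

/-!
# MP_609556_an, full answer, module NOTI: no planar entire solution with a steep tail which is
faster than `c_j`
-/

open MeasureTheory Set Filter Topology Metric
open Pool.Agent.H29.TF (hk P)
open Pool.Agent.H91.RD Pool.Agent.H91.RF

namespace Pool.Agent.H67.RF.NOTI

open Pool.Agent.H90.RD

variable {N : ℕ}

/-! ### planar functions -/

theorem hd1 {q : ℝ → ℝ} (hq : ContDiff ℝ 2 q) (z : ℝ) : HasDerivAt q (deriv q z) z :=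
  (hq.differentiable (by norm_num) z).hasDerivAt

theorem hd2 {q : ℝ → ℝ} (hq : ContDiff ℝ 2 q) (z : ℝ) :
    HasDerivAt (deriv q) (deriv (deriv q) z) z := by
  have h : ContDiff ℝ ((1 : ℕ) + (1 : ℕ) : ℕ) q := by exact_mod_cast hq
  have h2 := ContDiff.iterate_deriv' 1 1 h
  rw [Function.iterate_one] at h2
  exact (h2.differentiable (by norm_num) z).hasDerivAt

/-- planar profile -/
noncomputable def Sp (q : ℝ → ℝ) (e : E N) (a : ℝ) (y : E N) : ℝ := q (inner ℝ y e - a)

theorem Sp_contDiff {q : ℝ → ℝ} (hq : ContDiff ℝ 2 q) (e : E N) (a : ℝ) :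
    ContDiff ℝ 2 (Sp q e a) := by
  unfold Sp
  refine hq.comp ?_
  exact (contDiff_id.inner ℝ contDiff_const).sub contDiff_const

theorem Sp_lap {q : ℝ → ℝ} (hq : ContDiff ℝ 2 q) (e : E N) (a : ℝ) (y : E N) :
    Laplacian.laplacian (Sp q e a) y = ‖e‖ ^ 2 * deriv (deriv q) (inner ℝ y e - a) := by
  have key : ∀ v : E N, fderiv ℝ (fderiv ℝ (Sp q e a)) y v v =
      (inner ℝ e v) ^ 2 * deriv (deriv q) (inner ℝ y e - a) := by
    intro v
    have hin : ∀ t : ℝ, HasDerivAt (fun t : ℝ => inner ℝ (y + t • v) e - a)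
        (inner ℝ v e) t := by
      intro t
      have h2 : ∀ t : ℝ, inner ℝ (y + t • v) e - a =
          t * inner ℝ v e + (inner ℝ y e - a) := by
        intro t
        rw [inner_add_left, inner_smul_left]
        simp only [conj_trivial]
        ring
      simp only [h2]
      have := ((hasDerivAt_id t).mul_const (inner ℝ v e)).add_const (inner ℝ y e - a)
      simpa using this
    refine line_eq (Sp_contDiff hq e a).contDiffAt
      (p := fun t => deriv q (inner ℝ (y + t • v) e - a) * inner ℝ v e) (fun t => ?_) ?_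
    · exact (hd1 hq _).comp t (hin t)
    · have h1 : HasDerivAt (fun t : ℝ => deriv q (inner ℝ (y + t • v) e - a))
          (deriv (deriv q) (inner ℝ (y + (0 : ℝ) • v) e - a) * inner ℝ v e) 0 :=
        (hd2 hq _).comp (0 : ℝ) (hin 0)
      refine (h1.mul_const (inner ℝ v e)).congr_deriv ?_
      rw [zero_smul, add_zero, real_inner_comm v e]
      ring
  rw [lap_eq_sum, Finset.sum_congr rfl fun i _ => key _, ← Finset.sum_mul, sum_inner_sq]

theorem Sp_time {q : ℝ → ℝ} (hq : ContDiff ℝ 2 q) (e : E N) (v a s : ℝ) (y : E N) :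
    HasDerivAt (fun s => Sp q e (v * s + a) y)
      (-(v * deriv q (inner ℝ y e - (v * s + a)))) s := by
  have h1 : HasDerivAt (fun s : ℝ => inner ℝ y e - (v * s + a)) (-v) s := by
    have := (((hasDerivAt_id s).const_mul v).add_const a).const_sub (inner ℝ y e)
    simpa using this
  refine ((hd1 hq _).comp s h1).congr_deriv ?_
  ring

/-! ### joint regularity of entire solutions -/

theorem cont_w {f : ℝ → ℝ} {w : ℝ → E N → ℝ} (hw : Ent f w) :
    Continuous (fun p : ℝ × E N => w p.1 p.2) := by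
  rw [continuous_iff_continuousAt]
  rintro ⟨t, x⟩
  refine ((hw.1 (t - 1)).cont).continuousAt ?_
  exact (isOpen_Ioi.prod isOpen_univ).mem_nhds ⟨by simp, mem_univ _⟩

theorem cont_d (hTR : T_TR) (hMRG : T_MRG) {f : ℝ → ℝ} {K : ℝ} (hf : Reaction f) (hL : Lip f K)
    {w : ℝ → E N → ℝ} (hw : Ent f w) :
    Continuous (fun p : ℝ × E N => fderiv ℝ (w p.1) p.2) ∧
    Continuous (fun p : ℝ × E N => deriv (fun s => w s p.2) p.1) := by
  have key : ∀ a : ℝ, ContinuousOn (fun p : ℝ × E N => fderiv ℝ (w (a + p.1)) p.2)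
      (Ioi 0 ×ˢ univ) ∧
      ContinuousOn (fun p : ℝ × E N => deriv (fun s => w (a + s) p.2) p.1) (Ioi 0 ×ˢ univ) := by
    intro a
    have h := hTR N f a a 0 w (hw.1 a)
    simp only [sub_self, zero_add] at h
    have h2 := hMRG N f K (fun t x => w (a + t) x) hf hL h (fun t _ x => hw.2 _ _)
    exact ⟨h2.2.2.1, h2.2.2.2.2.1⟩
  constructor
  · rw [continuous_iff_continuousAt]
    rintro ⟨t, x⟩
    have h1 := (key (t - 1)).1.continuousAt (x := (1, x))
      ((isOpen_Ioi.prod isOpen_univ).mem_nhds ⟨by simp, mem_univ _⟩)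
    have h2 : ContinuousAt (fun p : ℝ × E N => (p.1 - (t - 1), p.2)) (t, x) := by fun_prop
    have h3 : (fun p : ℝ × E N => (p.1 - (t - 1), p.2)) (t, x) = (1, x) := by simp
    have h4 := ContinuousAt.comp_of_eq h1 h2 h3
    refine h4.congr (Eventually.of_forall fun p => ?_)
    simp only [Function.comp, add_sub_cancel]
  · rw [continuous_iff_continuousAt]
    rintro ⟨t, x⟩
    have h1 := (key (t - 1)).2.continuousAt (x := (1, x))
      ((isOpen_Ioi.prod isOpen_univ).mem_nhds ⟨by simp, mem_univ _⟩)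
    have h2 : ContinuousAt (fun p : ℝ × E N => (p.1 - (t - 1), p.2)) (t, x) := by fun_prop
    have h3 : (fun p : ℝ × E N => (p.1 - (t - 1), p.2)) (t, x) = (1, x) := by simp
    have h4 := ContinuousAt.comp_of_eq h1 h2 h3
    refine h4.congr (Eventually.of_forall fun p => ?_)
    simp only [Function.comp]
    rw [deriv_comp_const_add (fun s => w s p.2) (t - 1) (p.1 - (t - 1)), add_sub_cancel]

/-- derivative along a moving point -/
theorem hasDerivAt_move (hTR : T_TR) (hMRG : T_MRG) {f : ℝ → ℝ} {K : ℝ} (hf : Reaction f)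
    (hL : Lip f K) {w : ℝ → E N → ℝ} (hw : Ent f w) (hc2 : ∀ t, ContDiff ℝ 2 (w t))
    (hdt : ∀ t x, DifferentiableAt ℝ (fun s => w s x) t) (x n : E N) (cn r : ℝ) :
    HasDerivAt (fun r : ℝ => w (-r) (x - (cn * r) • n))
      (-(dt w (-r) (x - (cn * r) • n)) -
        cn * fderiv ℝ (w (-r)) (x - (cn * r) • n) n) r := by
  obtain ⟨hc1, hc2'⟩ := cont_d hTR hMRG hf hL hw
  set u : ℝ × E N := (-r, x - (cn * r) • n) with hu
  have hs := hasStrictFDerivAt_uncurry_coprod (𝕜 := ℝ) (u := u) (f := w)
    (f₁ := fun t x => (ContinuousLinearMap.toSpanSingleton ℝ (deriv (fun s => w s x) t)))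
    (f₂ := fun t x => fderiv ℝ (w t) x)
    (Eventually.of_forall fun v => (hdt v.1 v.2).hasDerivAt.hasFDerivAt)
    (Eventually.of_forall fun v => ((hc2 v.1).differentiable (by norm_num) v.2).hasFDerivAt)
    (by
      refine Continuous.continuousAt ?_
      exact (ContinuousLinearMap.toSpanSingletonCLE (𝕜 := ℝ) (E := ℝ)).continuous.comp hc2')
    (hc1.continuousAt)
  have hl : HasDerivAt (fun r : ℝ => ((-r, x - (cn * r) • n) : ℝ × E N))
      ((-1 : ℝ), -(cn • n)) r := by
    have h1 : HasDerivAt (fun r : ℝ => -r) (-1 : ℝ) r := hasDerivAt_neg' r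
    have h2 : HasDerivAt (fun r : ℝ => x - (cn * r) • n) (-(cn • n)) r := by
      have := (((hasDerivAt_id r).const_mul cn).smul_const n).const_sub x
      simpa using this
    exact h1.prodMk h2
  have hfin := hs.hasFDerivAt.comp_hasDerivAt r hl
  refine hfin.congr_deriv ?_
  simp [hu, dt, Function.HasUncurry.uncurry, ContinuousLinearMap.coprod_apply]
  ring

/-- a function whose gradient is `-G n`, `G ≥ 0`, is nonincreasing in the direction `n` -/
theorem planar_mono {g : E N → ℝ} {n : E N} {G : E N → ℝ} (hg : Differentiable ℝ g)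
    (hG : ∀ x, 0 ≤ G x)
    (hfd : ∀ x, fderiv ℝ g x = -(G x) • (innerSL ℝ n : E N →L[ℝ] ℝ)) {x y : E N}
    (hxy : inner ℝ x n ≤ inner ℝ y n) : g y ≤ g x := by
  have hline : ∀ r : ℝ, HasDerivAt (fun r : ℝ => g (x + r • (y - x)))
      (fderiv ℝ g (x + r • (y - x)) (y - x)) r := fun r => hasDerivAt_line1 (hg _)
  have hanti : Antitone (fun r : ℝ => g (x + r • (y - x))) := by
    refine antitone_of_deriv_nonpos (fun r => (hline r).differentiableAt) fun r => ?_
    rw [(hline r).deriv, hfd]
    have h1 : inner ℝ n (y - x) = inner ℝ y n - inner ℝ x n := by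
      rw [inner_sub_right, real_inner_comm y n, real_inner_comm x n]
    have h2 := hG (x + r • (y - x))
    have h3 : ((-(G (x + r • (y - x)))) • (innerSL ℝ n : E N →L[ℝ] ℝ)) (y - x) =
        -(G (x + r • (y - x)) * inner ℝ n (y - x)) := by
      simp
    rw [h3, h1]
    nlinarith
  have := hanti (zero_le_one)
  simpa using this

/-- comparison with a supersolution -/
theorem compare (hMP0 : T_MP0) {f : ℝ → ℝ} {K : ℝ} (hL : Lip f K) {w : ℝ → E N → ℝ}
    (hw : Ent f w) (hc2 : ∀ t, ContDiff ℝ 2 (w t))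
    (heq : ∀ t x, HasDerivAt (fun s => w s x) (Laplacian.laplacian (w t) x + f (w t x)) t)
    {S : ℝ → E N → ℝ} {s B : ℝ} (hs : 0 < s) (hSc : Continuous (fun p : ℝ × E N => S p.1 p.2))
    (hSb : ∀ t x, -B ≤ S t x) (hS2 : ∀ t, ContDiff ℝ 2 (S t))
    (hSt : ∀ t x, DifferentiableAt ℝ (fun s => S s x) t)
    (hSup : ∀ t x, S t x < w t x → t ≤ 0 →
      Laplacian.laplacian (S t) x + f (S t x) ≤ deriv (fun s => S s x) t)
    (hinit : ∀ x, w (-s) x ≤ S (-s) x) (x : E N) : w 0 x ≤ S 0 x := by
  have h := hMP0 N K (-s) 0 (1 + B) (fun t x => S t x - w t x) hL.K0.le (by linarith)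
    ((hSc.sub (cont_w hw)).continuousOn)
    (fun t _ x => by
      have h1 := hSb t x
      have h2 := (hw.2 t x).2
      linarith)
    (fun t ht x hz => by
      have hz' : S t x < w t x := by linarith
      refine ⟨((hS2 t).sub (hc2 t)).contDiffAt, (hSt t x).sub (heq t x).differentiableAt, ?_⟩
      have hlap : Laplacian.laplacian (fun x => S t x - w t x) x =
          Laplacian.laplacian (S t) x - Laplacian.laplacian (w t) x :=
        (hS2 t).contDiffAt.laplacian_sub (hc2 t).contDiffAt
      have hder : deriv (fun s => S s x - w s x) t =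
          deriv (fun s => S s x) t - (Laplacian.laplacian (w t) x + f (w t x)) :=
        ((hSt t x).hasDerivAt.sub (heq t x)).deriv
      rw [hlap, hder]
      have h1 := hSup t x hz' ht.2
      have h2 := hL.lip (w t x) (S t x)
      rw [abs_of_pos (by linarith : 0 < w t x - S t x)] at h2
      have h3 := (abs_le.1 h2).2
      nlinarith)
    (fun x => by
      have := hinit x
      linarith) 0 ⟨by linarith, le_refl _⟩ x
  linarith

theorem noti (hSUPS : T_SUPS) (hMP0 : T_MP0) (hTR : T_TR) (hMRG : T_MRG) : T_NOTI := by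
  intro N f K J b c y hN hf hL hT j hj h4 cn hcn
  have hcpos : 0 < c j := (hT.ext j hj).cpos
  obtain ⟨σ, hσ0, hσ1, hσ2⟩ : ∃ σ : ℝ, 0 < σ ∧ σ ≤ (cn - c j) / 2 ∧ σ ≤ c j / 4 :=
    ⟨min ((cn - c j) / 2) (c j / 4), lt_min (by linarith) (by linarith), min_le_left _ _,
      min_le_right _ _⟩
  obtain ⟨m, Cq, Λ, q, hm, hCq, hΛ, hq, hqd, hqb, hq0, hqs, -, hqlow, hqup, hΛ4⟩ :=
    hSUPS f K J b c y hf hL hT j hj σ hσ0
  obtain ⟨hΛ1, hΛ2⟩ := hΛ4 h4
  refine ⟨Λ, hΛ1, hΛ2, ?_⟩
  intro w n ℓ R1 C hn hw hc2 heq hpl hsp hup hℓ1 hℓ2 hR1 hC hTw h00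
  have hdt : ∀ t x, DifferentiableAt ℝ (fun s => w s x) t := fun t x =>
    (heq t x).differentiableAt
  have hnn : inner ℝ n n = (1 : ℝ) := by
    rw [real_inner_self_eq_norm_sq, hn]; norm_num
  have hmono : ∀ t ≤ 0, ∀ x y : E N, inner ℝ x n ≤ inner ℝ y n → w t y ≤ w t x :=
    fun t ht x y hxy => planar_mono (n := n) (G := gr w t)
      ((hc2 t).differentiable (by norm_num)) (fun x => norm_nonneg _) (hpl t ht) hxy
  have hspeed : ∀ s ≥ 0, ∀ x, w (-s) (x - (cn * s) • n) ≤ w 0 x := by
    intro s hs x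
    have hder := fun r : ℝ => hasDerivAt_move hTR hMRG hf hL hw hc2 hdt x n cn r
    have hanti : AntitoneOn (fun r : ℝ => w (-r) (x - (cn * r) • n)) (Ici 0) := by
      refine antitoneOn_of_deriv_nonpos (convex_Ici 0)
        (fun r _ => (hder r).continuousAt.continuousWithinAt)
        (fun r _ => (hder r).differentiableAt.differentiableWithinAt) fun r hr => ?_
      rw [interior_Ici] at hr
      have hr' : -r ≤ 0 := by
        have : 0 < r := hr
        linarith
      rw [(hder r).deriv, hpl (-r) hr']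
      have h1 := hsp (-r) hr' (x - (cn * r) • n)
      have h3 : ((-(gr w (-r) (x - (cn * r) • n))) • (innerSL ℝ n : E N →L[ℝ] ℝ)) n =
          -(gr w (-r) (x - (cn * r) • n)) := by
        simp [hn]
      rw [h3]
      linarith
    have := hanti (mem_Ici.2 le_rfl) (mem_Ici.2 hs) hs
    simpa using this
  have hqanti : StrictAnti q := strictAnti_of_deriv_neg hqd
  by_cases hcase : ∃ s, 0 ≤ s ∧ ig w ℓ R1 (-s) = ∅
  · obtain ⟨s, hs, hemp⟩ := hcase
    have h1 := (hTw (-s)).1 hemp
    rcases hs.eq_or_lt with rfl | hs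
    · simpa using h1 0
    refine compare hMP0 hL hw hc2 heq (S := fun _ _ => b j) (B := |b j|) hs continuous_const
      (fun _ _ => neg_abs_le _) (fun _ => contDiff_const) (fun _ _ => differentiableAt_const _)
      (fun t x _ _ => ?_) h1 0
    have h2 : Laplacian.laplacian (fun _ : E N => b j) x = 0 := by
      rw [InnerProductSpace.laplacian_const]; rfl
    rw [h2, hT.zer j hj.le]
    simp
  push Not at hcase
  -- decay at the time `-s`
  have hdecay : ∀ s, 0 ≤ s → ∀ x, w (-s) x - b j ≤ C * Real.exp (-(Λ * (inner ℝ x n + cn * s))) := by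
    intro s hs x
    have hs' : -s ≤ 0 := by linarith
    have hne := hcase s hs
    have h1 := (hTw (-s)).2 hne x
    have h2 : inner ℝ x n + cn * s ≤ infDist x (ig w ℓ R1 (-s)) := by
      refine (le_infDist hne).2 fun y hy => ?_
      have h3 : inner ℝ y n ≤ -(cn * s) := by
        by_contra hcon
        push Not at hcon
        have h4 : ℓ ≤ w (-s) y := hy y (mem_closedBall_self hR1.le)
        have h5 := hspeed s hs (y + (cn * s) • n)
        rw [add_sub_cancel_right] at h5
        have h6 : w 0 (y + (cn * s) • n) ≤ w 0 0 := by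
          refine hmono 0 le_rfl _ _ ?_
          rw [inner_zero_left, inner_add_left, inner_smul_left, hnn]
          simp only [conj_trivial]
          linarith
        linarith
      have h7 : inner ℝ (x - y) n ≤ dist x y := by
        have := real_inner_le_norm (x - y) n
        rwa [hn, mul_one, ← dist_eq_norm] at this
      rw [inner_sub_left] at h7
      linarith
    have h8 : Real.exp (-(Λ * infDist x (ig w ℓ R1 (-s)))) ≤
        Real.exp (-(Λ * (inner ℝ x n + cn * s))) := by
      refine Real.exp_le_exp.2 ?_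
      have := mul_le_mul_of_nonneg_left h2 hΛ.le
      linarith
    have h9 := mul_le_mul_of_nonneg_left h8 (by linarith : (0 : ℝ) ≤ C)
    linarith
  obtain ⟨L, hL0, hLC⟩ : ∃ L : ℝ, 0 ≤ L ∧ C * Real.exp (-(Λ * L)) = Cq⁻¹ := by
    refine ⟨Real.log (C * Cq) / Λ, div_nonneg (Real.log_nonneg ?_) hΛ.le, ?_⟩
    · nlinarith
    · have h1 : Λ * (Real.log (C * Cq) / Λ) = Real.log (C * Cq) := by
        field_simp
      rw [h1, Real.exp_neg, Real.exp_log (by nlinarith)]
      have h2 : C ≠ 0 := by linarith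
      have h3 : Cq ≠ 0 := by linarith
      field_simp
  have hbound : ∀ s, 0 < s → w 0 0 ≤ q ((cn - c j - σ) * s - L) := by
    intro s hs
    have hcmp := compare hMP0 hL hw hc2 heq
      (S := fun t => Sp q n ((c j + σ) * t + (L - cn * s + (c j + σ) * s))) (B := |b j|) hs
      (by
        unfold Sp
        refine hq.continuous.comp ?_
        fun_prop)
      (fun t x => (neg_abs_le _).trans (hqb _).le) (fun t => Sp_contDiff hq n _)
      (fun t x => (Sp_time hq n (c j + σ) _ t x).differentiableAt)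
      (fun t x hlt ht => by
        have harg : 0 < inner ℝ x n - ((c j + σ) * t + (L - cn * s + (c j + σ) * s)) := by
          by_contra hcon
          push Not at hcon
          have h1 := hqanti.antitone hcon
          rw [hq0] at h1
          have h2 := hup t ht x
          have h3 : q (inner ℝ x n - ((c j + σ) * t + (L - cn * s + (c j + σ) * s))) < w t x := hlt
          linarith
        rw [(Sp_time hq n (c j + σ) _ t x).deriv, Sp_lap hq, hn]
        have h1 := hqs _ harg.le
        unfold Sp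
        linarith)
      (fun x => by
        have h1 := hdecay s hs.le x
        show w (-s) x ≤ q (inner ℝ x n - ((c j + σ) * (-s) + (L - cn * s + (c j + σ) * s)))
        have h2 : inner ℝ x n - ((c j + σ) * (-s) + (L - cn * s + (c j + σ) * s)) =
            inner ℝ x n + cn * s - L := by ring
        rw [h2]
        rcases le_or_gt (inner ℝ x n + cn * s - L) 0 with h3 | h3
        · have h4 := hqanti.antitone h3
          rw [hq0] at h4
          have h5 := hup (-s) (by linarith) x
          linarith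
        · have h4 := hqlow _ h3.le
          have h5 : C * Real.exp (-(Λ * (inner ℝ x n + cn * s))) =
              Cq⁻¹ * Real.exp (-(Λ * (inner ℝ x n + cn * s - L))) := by
            rw [← hLC, mul_assoc, ← Real.exp_add]
            congr 2
            ring
          linarith) 0
    refine hcmp.trans (le_of_eq ?_)
    unfold Sp
    congr 1
    rw [inner_zero_left]
    ring
  have hg : 0 < cn - c j - σ := by linarith
  have hg2 : 0 < c j / 2 - σ := by linarith
  have hlim1 : Tendsto (fun s : ℝ => (cn - c j - σ) * s - L) atTop atTop :=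
    tendsto_atTop_add_const_right _ _ (tendsto_id.const_mul_atTop hg)
  have hlim2 : Tendsto (fun s : ℝ => b j + Cq * Real.exp (-((c j / 2 - σ) *
      ((cn - c j - σ) * s - L)))) atTop (𝓝 (b j + Cq * 0)) := by
    refine ((Real.tendsto_exp_atBot.comp ?_).const_mul Cq).const_add (b j)
    exact tendsto_neg_atTop_atBot.comp (hlim1.const_mul_atTop hg2)
  rw [mul_zero, add_zero] at hlim2
  refine ge_of_tendsto hlim2 ?_
  filter_upwards [hlim1.eventually_ge_atTop 0, eventually_gt_atTop (0 : ℝ)] with s h1 h2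
  have h3 := hbound s h2
  have h4 := hqup _ h1
  linarith

end Pool.Agent.H67.RF.NOTI
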