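import Mathlib

/-!
# Power maps in nilpotent groups whose commutators have bounded order (helper67, MP_335823_al)
-/

set_option autoImplicit false

open scoped commutatorElement

namespace Pool.Agent.H67.RF

open Subgroup

section
variable {K : Type*} [Group K] {m : ℕ}

theorem lcs_pow (hc : ∀ a b : K, ⁅a, b⁆ ^ m = 1) (i : ℕ) (z : K)
    (hz : z ∈ (⊤ : Subgroup K).lowerCentralSeries (i + 1)) :
    z ^ m ∈ (⊤ : Subgroup K).lowerCentralSeries (i + 2) := by
  set L2 := (⊤ : Subgroup K).lowerCentralSeries (i + 2) with hL2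
  have hcomm : ∀ x ∈ (⊤ : Subgroup K).lowerCentralSeries (i + 1), ∀ y : K, ⁅x, y⁆ ∈ L2 := by
    intro x hx y
    rw [hL2, Subgroup.lowerCentralSeries_succ]
    exact commutator_mem_commutator hx (mem_top y)
  have key : ∀ z ∈ (⊤ : Subgroup K).lowerCentralSeries (i + 1),
      z ^ m ∈ L2 ∧ z ∈ (⊤ : Subgroup K).lowerCentralSeries (i + 1) := by
    intro z hz
    rw [Subgroup.mem_lowerCentralSeries_succ_iff] at hz
    induction hz using closure_induction with
    | mem x hx =>
      obtain ⟨p, hp, q, hq, rfl⟩ := hx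
      refine ⟨?_, ?_⟩
      · rw [hc]
        exact L2.one_mem
      · rw [Subgroup.lowerCentralSeries_succ]
        exact commutator_mem_commutator hp hq
    | one => exact ⟨by rw [one_pow]; exact L2.one_mem, one_mem _⟩
    | mul x y _ _ hx hy =>
      refine ⟨?_, mul_mem hx.2 hy.2⟩
      rw [← QuotientGroup.eq_one_iff (N := L2), QuotientGroup.mk_pow, QuotientGroup.mk_mul]
      have h1 : Commute (x : K ⧸ L2) (y : K ⧸ L2) := by
        show ((x : K ⧸ L2) * y) = y * x
        rw [← QuotientGroup.mk_mul, ← QuotientGroup.mk_mul, QuotientGroup.eq_iff_div_mem]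
        have h2 : x * y / (y * x) = ⁅x, y⁆ := by
          rw [commutatorElement_def, div_eq_mul_inv, mul_inv_rev, ← mul_assoc]
        rw [h2]
        exact hcomm x hx.2 y
      rw [h1.mul_pow, ← QuotientGroup.mk_pow, ← QuotientGroup.mk_pow,
        (QuotientGroup.eq_one_iff _).2 hx.1, (QuotientGroup.eq_one_iff _).2 hy.1, one_mul]
    | inv x _ hx =>
      refine ⟨?_, inv_mem hx.2⟩
      rw [inv_pow]
      exact inv_mem hx.1
  exact (key z hz).1

theorem pow_mul_of_central {Q : Type*} [Group Q] (α κ ζ : Q) (h : α * κ = ζ * κ * α)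
    (hz : Commute ζ α) (n : ℕ) : α ^ n * κ = ζ ^ n * κ * α ^ n := by
  induction n with
  | zero => simp
  | succ n ih =>
    have h1 : Commute (ζ ^ n) α := hz.pow_left n
    calc α ^ (n + 1) * κ = α * (α ^ n * κ) := by rw [pow_succ', mul_assoc]
      _ = α * ζ ^ n * κ * α ^ n := by rw [ih]; group
      _ = ζ ^ n * (α * κ) * α ^ n := by rw [← h1.eq]; group
      _ = ζ ^ (n + 1) * κ * α ^ (n + 1) := by rw [h]; group

theorem comm_pow (hc : ∀ a b : K, ⁅a, b⁆ ^ m = 1) (i : ℕ) (a k : K) :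
    ⁅a ^ (m ^ i), k⁆ ∈ (⊤ : Subgroup K).lowerCentralSeries (i + 1) := by
  induction i with
  | zero =>
    rw [Subgroup.lowerCentralSeries_succ]
    exact commutator_mem_commutator (mem_top _) (mem_top _)
  | succ i ih =>
    set L2 := (⊤ : Subgroup K).lowerCentralSeries (i + 1 + 1) with hL2
    set α : K ⧸ L2 := ((a ^ (m ^ i) : K) : K ⧸ L2) with hα
    set κ : K ⧸ L2 := ((k : K) : K ⧸ L2) with hκ
    set ζ : K ⧸ L2 := ((⁅a ^ (m ^ i), k⁆ : K) : K ⧸ L2) with hζ
    have h1 : α * κ = ζ * κ * α := by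
      rw [hα, hκ, hζ, ← QuotientGroup.mk_mul, ← QuotientGroup.mk_mul, ← QuotientGroup.mk_mul]
      congr 1
      rw [commutatorElement_def]
      group
    have h2 : Commute ζ α := by
      show ζ * α = α * ζ
      rw [hζ, hα, ← QuotientGroup.mk_mul, ← QuotientGroup.mk_mul, QuotientGroup.eq_iff_div_mem]
      have h3 : ⁅a ^ (m ^ i), k⁆ * a ^ (m ^ i) / (a ^ (m ^ i) * ⁅a ^ (m ^ i), k⁆) =
          ⁅⁅a ^ (m ^ i), k⁆, a ^ (m ^ i)⁆ := by
        rw [commutatorElement_def (⁅a ^ (m ^ i), k⁆), div_eq_mul_inv, mul_inv_rev, ← mul_assoc]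
      rw [h3, hL2, Subgroup.lowerCentralSeries_succ]
      exact commutator_mem_commutator ih (mem_top _)
    have h4 := pow_mul_of_central α κ ζ h1 h2 m
    have h5 : ζ ^ m = 1 := by
      rw [hζ, ← QuotientGroup.mk_pow, QuotientGroup.eq_one_iff]
      exact lcs_pow hc i _ ih
    rw [h5, one_mul] at h4
    rw [← QuotientGroup.eq_one_iff (N := L2)]
    have h6 : ((⁅a ^ (m ^ (i + 1)), k⁆ : K) : K ⧸ L2) = ⁅α ^ m, κ⁆ := by
      rw [commutatorElement_def, commutatorElement_def, hα, hκ, ← QuotientGroup.mk_pow,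
        ← pow_mul, ← pow_succ]
      rfl
    rw [h6, commutatorElement_def, h4]
    group

theorem lcs_pow_iter (hc : ∀ a b : K, ⁅a, b⁆ ^ m = 1) (j : ℕ) (z : K)
    (hz : z ∈ (⊤ : Subgroup K).lowerCentralSeries 1) :
    z ^ (m ^ j) ∈ (⊤ : Subgroup K).lowerCentralSeries (j + 1) := by
  induction j with
  | zero => simpa using hz
  | succ j ih =>
    rw [pow_succ, pow_mul]
    exact lcs_pow hc j _ ih

/-- in a nilpotent group of class `c` in which all commutators have order dividing `m`, the powers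
`m^c` are central and the power map `m^(2c)` is a homomorphism -/
theorem nil_pow (hc : ∀ a b : K, ⁅a, b⁆ ^ m = 1) (c : ℕ)
    (hn : (⊤ : Subgroup K).lowerCentralSeries c = ⊥) :
    (∀ a k : K, Commute (a ^ (m ^ c)) k) ∧
    ∀ a b : K, (a * b) ^ (m ^ c * m ^ c) = a ^ (m ^ c * m ^ c) * b ^ (m ^ c * m ^ c) := by
  have hbot : (⊤ : Subgroup K).lowerCentralSeries (c + 1) = ⊥ := by
    rw [eq_bot_iff, ← hn]
    exact Subgroup.lowerCentralSeries_antitone _ (Nat.le_succ c)
  have h1 : ∀ a k : K, Commute (a ^ (m ^ c)) k := by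
    intro a k
    have h2 := comm_pow hc c a k
    rw [hbot, mem_bot, commutatorElement_eq_one_iff_commute] at h2
    exact h2
  refine ⟨h1, ?_⟩
  intro a b
  set s := m ^ c with hs
  set w := (a * b) ^ s * (b ^ s)⁻¹ * (a ^ s)⁻¹ with hw
  have hw1 : w ∈ (⊤ : Subgroup K).lowerCentralSeries 1 := by
    rw [top_lowerCentralSeries_one]
    have h3 : Abelianization.of w = 1 := by
      rw [hw, map_mul, map_mul, map_inv, map_inv, map_pow, map_pow, map_pow, map_mul, mul_pow]
      rw [mul_assoc (Abelianization.of a ^ s), mul_inv_cancel, mul_one, mul_inv_cancel]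
    exact (QuotientGroup.eq_one_iff _).1 h3
  have hws : w ^ s = 1 := by
    have h4 := lcs_pow_iter hc c w hw1
    rw [hbot, mem_bot] at h4
    exact h4
  have h5 : (a * b) ^ s = w * (a ^ s * b ^ s) := by
    rw [hw]
    group
  have hcw : Commute w (a ^ s * b ^ s) :=
    ((h1 a w).symm).mul_right ((h1 b w).symm)
  rw [pow_mul, h5, hcw.mul_pow, hws, one_mul, (h1 a (b ^ s)).mul_pow, ← pow_mul, ← pow_mul]

end

end Pool.Agent.H67.RF
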