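import Pool.Agent.H91.RF.TargetsR

/-!
# MP_609556_an, full answer, module STP: lower bound of `p` in the wake
-/

open MeasureTheory Set Filter Topology Metric
open Pool.Agent.H29.TF (hk P)
open Pool.Agent.H91.RD Pool.Agent.H91.RF

namespace Pool.Agent.H67.RF.STP

variable {N : ℕ}

theorem dx_neg (u : ℝ → E N → ℝ) (e : E N) (t : ℝ) (x : E N) : dx u (-e) t x = -dx u e t x := by
  unfold dx
  rw [map_neg]

theorem u01 {f : ℝ → ℝ} {U : Set (E N)} {u : ℝ → E N → ℝ} (hS : SolM f U u) {s : ℝ} (hs : 0 < s)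
    (x : E N) : u s x ∈ Icc (0 : ℝ) 1 := by
  have h := hS.rng s hs.le x
  unfold lift0 at h
  rw [if_neg (by linarith)] at h
  exact h

theorem abs_dx_le (u : ℝ → E N → ℝ) {e : E N} (he : ‖e‖ = 1) (t : ℝ) (x : E N) :
    |dx u (-e) t x| ≤ gr u t x := by
  unfold dx gr
  have h := (fderiv ℝ (u t) x).le_opNorm (-e)
  rwa [norm_neg, he, mul_one, Real.norm_eq_abs] at h

theorem stp (hCYL : T_CYL) (hGEOK : T_GEOK) (hLINU : T_LINU) (hFPC : T_FPC) : T_STP := by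
  intro N f K ch cc lo b hi C0 C9 η0 U u hS hcc hfb hfpb hM1 hM2 hF ω hω ω0 hω0
  have hN : (1 : ℝ) ≤ N := by exact_mod_cast hS.N1
  have hN0 : (0 : ℝ) < N := by linarith
  have hcc0 : 0 < cc := hM2.cpos
  have hch0 : 0 < ch := hM1.cpos
  have hη0 := hF.hη0
  have hC9 := hF.hC9
  obtain ⟨ρK, hρK, TK, hTK, HK⟩ := hGEOK N U cc hS.condC hS.ne hcc0 η0 hη0
  obtain ⟨hPt, hVc, hLin, C, hC⟩ := hLINU N f K U u hS.reac hS.lip hS.sol
  have hC0 : 0 ≤ C := (norm_nonneg _).trans (hC 1 le_rfl 0).1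
  have hb01 : b ∈ Icc (0 : ℝ) 1 := ⟨hM2.lo0, hM1.hi1⟩
  -- constants
  obtain ⟨c', hc', hc'ch⟩ : ∃ c' : ℝ, 0 < c' ∧ c' * ch = cc / 2 :=
    ⟨cc / (2 * ch), by positivity, by field_simp⟩
  obtain ⟨ρ3, hρ3, hρ3ω, hρ3η, hρ3K⟩ : ∃ ρ3 : ℝ, 0 < ρ3 ∧ ρ3 ≤ ω / 4 ∧ ρ3 ≤ η0 / 4 * c' ∧
      ρ3 ≤ ρK :=
    ⟨min (ω / 4) (min (η0 / 4 * c') ρK), lt_min (by positivity) (lt_min (by positivity) hρK),
      min_le_left _ _, (min_le_right _ _).trans (min_le_left _ _),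
      (min_le_right _ _).trans (min_le_right _ _)⟩
  obtain ⟨ω', hω', hω'0, hω'ρ⟩ : ∃ ω' : ℝ, 0 < ω' ∧ ω' ≤ ω0 ∧ ω' * (16 * N) ≤ ρ3 ^ 2 := by
    refine ⟨min ω0 (ρ3 ^ 2 / (16 * N)), lt_min hω0 (by positivity), min_le_left _ _, ?_⟩
    rw [← le_div_iff₀ (by positivity)]
    exact min_le_right _ _
  obtain ⟨η2, hη2, hη2C, hη2η, hη2c⟩ : ∃ η2 : ℝ, 0 < η2 ∧ 2 * C9 * η2 ≤ ω' / 16 ∧
      η2 ≤ η0 / 4 ∧ η2 ≤ (ch - cc) / 4 := by
    refine ⟨min (ω' / 16 / (2 * C9)) (min (η0 / 4) ((ch - cc) / 4)),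
      lt_min (by positivity) (lt_min (by positivity) (by linarith)), ?_,
      (min_le_right _ _).trans (min_le_left _ _), (min_le_right _ _).trans (min_le_right _ _)⟩
    rw [mul_comm, ← le_div_iff₀ (by positivity)]
    exact min_le_left _ _
  obtain ⟨κ', hκ', hκ'N⟩ : ∃ κ' : ℝ, 0 < κ' ∧ N * κ' ^ 2 ≤ ω' / 16 := by
    refine ⟨min 1 (ω' / 16 / N), lt_min one_pos (by positivity), ?_⟩
    have h1 : min 1 (ω' / 16 / N) ≤ 1 := min_le_left _ _
    have h2 : min 1 (ω' / 16 / N) ≤ ω' / 16 / N := min_le_right _ _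
    have h3 : 0 < min 1 (ω' / 16 / N) := lt_min one_pos (by positivity)
    have h4 : (min 1 (ω' / 16 / N)) ^ 2 ≤ ω' / 16 / N :=
      (pow_le_of_le_one h3.le h1 two_ne_zero).trans h2
    rw [mul_comm]
    exact (le_div_iff₀ hN0).1 h4
  have hω1 : 0 < ω' / 16 := by positivity
  obtain ⟨δf, hδf, Hf⟩ : ∃ δf > 0, ∀ s ∈ Icc (0 : ℝ) 1, |s - b| ≤ δf → |fp f s| ≤ ω' / 16 := by
    obtain ⟨-, hfc, -⟩ := hFPC f K hS.reac hS.lip
    have h1 := Metric.continuousOn_iff.1 hfc b hb01 (ω' / 16) hω1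
    obtain ⟨δ, hδ, h2⟩ := h1
    refine ⟨δ / 2, by positivity, fun s hs hsb => ?_⟩
    have h3 := h2 s hs (by rw [Real.dist_eq]; linarith)
    rw [hfpb, Real.dist_eq, sub_zero] at h3
    exact h3.le
  obtain ⟨ε1, hε1, hε1a, hε1b, hε1c⟩ : ∃ ε1 : ℝ, 0 < ε1 ∧ ε1 ≤ η2 / 2 ∧ ε1 ≤ ω / 2 ∧ ε1 ≤ δf :=
    ⟨min (η2 / 2) (min (ω / 2) δf), lt_min (by positivity) (lt_min (by positivity) hδf),
      min_le_left _ _, (min_le_right _ _).trans (min_le_left _ _),
      (min_le_right _ _).trans (min_le_right _ _)⟩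
  obtain ⟨Ta, hTa, Ha⟩ := hM2.ahead ε1 hε1
  obtain ⟨Tb, hTb, Hb⟩ := hM1.behind ε1 hε1
  obtain ⟨Tp, hTp, Hp⟩ := hF.pos
  obtain ⟨Tl, hTl, Hl⟩ := hF.low (ω' / 16) hω1
  obtain ⟨r0, hr0⟩ : ∃ r0 : ℝ, r0 = √N * (Real.pi / (2 * κ')) := ⟨_, rfl⟩
  have hr0pos : 0 ≤ r0 := by rw [hr0]; positivity
  have ev : ∀ (A B : ℝ), 0 < A → ∀ᶠ t : ℝ in atTop, B ≤ A * t := fun A B hA =>
    (tendsto_id.const_mul_atTop hA).eventually_ge_atTop B
  have hev : ∀ᶠ t : ℝ in atTop, 0 < t ∧ TK ≤ t ∧ Ta ≤ c' * t ∧ Tb ≤ c' * t ∧ Tp ≤ c' * t ∧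
      Tl ≤ c' * t ∧ 1 ≤ c' * t ∧ r0 ≤ ρ3 * t ∧ r0 ≤ η2 * t ∧ r0 ≤ η2 / 2 * c' * t ∧
      r0 ≤ ω / 2 * t ∧ Real.log (1 + 2 * N * C) ≤ 3 * ω' / 4 * t := by
    filter_upwards [eventually_gt_atTop (0 : ℝ), eventually_ge_atTop TK, ev c' Ta hc', ev c' Tb hc',
      ev c' Tp hc', ev c' Tl hc', ev c' 1 hc', ev ρ3 r0 hρ3, ev η2 r0 hη2,
      ev (η2 / 2 * c') r0 (by positivity), ev (ω / 2) r0 (by positivity),
      ev (3 * ω' / 4) (Real.log (1 + 2 * N * C)) (by positivity)] with t h1 h2 h3 h4 h5 h6 h7 h8 h9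
      h10 h11 h12
    exact ⟨h1, h2, h3, h4, h5, h6, h7, h8, h9, h10, h11, h12⟩
  obtain ⟨T, hT⟩ := eventually_atTop.1 hev
  refine ⟨max T 1, lt_max_of_lt_right one_pos, fun t ht x ξ e hDir hd1 hd2 => ?_⟩
  obtain ⟨ht0, h2, h3, h4, h5, h6, h7, h8, h9, h10, h11, h12⟩ := hT t ((le_max_left _ _).trans ht)
  set d := infDist x U with hd
  have hchη : 0 < ch - η2 := by linarith
  obtain ⟨t1, ht1d⟩ : ∃ t1 : ℝ, t1 * (ch - η2) = d := ⟨d / (ch - η2), by field_simp⟩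
  have hωt : 0 < ω * t := by positivity
  have hcct : 0 < cc * t := by positivity
  have ht1c : c' * t ≤ t1 := by
    by_contra hcon
    push Not at hcon
    have e1 : t1 * (ch - η2) < c' * t * (ch - η2) := mul_lt_mul_of_pos_right hcon hchη
    have e2 : c' * t * (ch - η2) ≤ c' * t * ch := by
      have : 0 < c' * t := by positivity
      linarith
    have e3 : c' * t * ch = cc / 2 * t := by rw [← hc'ch]; ring
    linarith
  have ht10 : 0 < t1 := by linarith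
  have ht1t : t1 < t := by
    by_contra hcon
    push Not at hcon
    have e1 : t * (ch - η2) ≤ t1 * (ch - η2) := mul_le_mul_of_nonneg_right hcon hchη.le
    have e2 : η2 * t ≤ (ch - cc) / 4 * t := mul_le_mul_of_nonneg_right hη2c ht0.le
    have e3 : 0 < (ch - cc) * t := mul_pos (by linarith) ht0
    linarith
  -- geometry
  have hND : ∀ y, dist y x ≤ ρ3 * t → NDir U η0 y e := by
    intro y hy
    refine HK t h2 x e ⟨hDir.unit, ξ, e, hDir, by simp [hρK.le]⟩ (by linarith) y ?_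
    exact hy.trans (mul_le_mul_of_nonneg_right hρ3K ht0.le)
  have hup : ∀ y, infDist y U ≤ d + dist y x := fun y => infDist_le_infDist_add_dist
  have hlow : ∀ y, d - dist y x ≤ infDist y U := fun y => by
    have := infDist_le_infDist_add_dist (x := x) (y := y) (s := U)
    rw [dist_comm x y] at this
    linarith
  -- the potential in the wake
  have hV : ∀ τ, t1 ≤ τ → ∀ y, (cc + ε1) * τ ≤ infDist y U → infDist y U ≤ (ch - ε1) * τ →
      |pot f u τ y| ≤ ω' / 16 := by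
    intro τ hτ y hy1 hy2
    have hτ0 : 0 < τ := by linarith
    unfold pot
    rw [if_pos hτ0]
    refine Hf _ (u01 hS.sol hτ0 y) ?_
    have e1 := Ha τ (by linarith) y hy1
    have e2 := Hb τ (by linarith) y hy2
    rw [abs_le]
    constructor <;> linarith
  have hρη : ρ3 * t ≤ η0 / 4 * t1 := by
    have e1 : ρ3 * t ≤ η0 / 4 * c' * t := mul_le_mul_of_nonneg_right hρ3η ht0.le
    have e2 : η0 / 4 * (c' * t) ≤ η0 / 4 * t1 := mul_le_mul_of_nonneg_left ht1c (by positivity)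
    linarith
  have hpos : ∀ τ, t1 ≤ τ → ∀ y, dist y x ≤ ρ3 * t → |infDist y U - ch * τ| ≤ η0 * τ →
      0 ≤ dx u (-e) τ y := by
    intro τ hτ y hy hyτ
    rw [dx_neg]
    exact (Hp τ (by linarith) y e (hND y hy) hyτ).1.le
  have hη2t1 : η2 * t1 ≤ η0 / 4 * t1 := mul_le_mul_of_nonneg_right hη2η ht10.le
  have hη2p : 0 ≤ η2 * t1 := by positivity
  have hη0p : 0 ≤ η0 * t1 := by positivity
  -- the ball
  have hsign : ∀ τ ∈ Icc t1 t, ∀ y ∈ closedBall x (ρ3 * t),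
      |pot f u τ y| ≤ ω' / 16 ∨ 0 ≤ dx u (-e) τ y := by
    intro τ hτ y hy
    rw [mem_closedBall] at hy
    have hτ0 : 0 < τ := by linarith [hτ.1]
    by_cases hc : |infDist y U - ch * τ| ≤ η0 * τ
    · exact Or.inr (hpos τ hτ.1 y hy hc)
    left
    have e1 := hup y
    have e2 := hlow y
    have e3 : η0 * t1 ≤ η0 * τ := mul_le_mul_of_nonneg_left hτ.1 hη0.le
    have e4 : ch * t1 ≤ ch * τ := mul_le_mul_of_nonneg_left hτ.1 hch0.le
    have e5 : infDist y U - ch * τ ≤ η0 * τ := by linarith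
    have e6 : infDist y U - ch * τ < -(η0 * τ) := by
      by_contra hcon
      push Not at hcon
      exact hc (abs_le.2 ⟨hcon, e5⟩)
    refine hV τ hτ.1 y ?_ ?_
    · have e7 : ρ3 * t ≤ ω / 4 * t := mul_le_mul_of_nonneg_right hρ3ω ht0.le
      have e8 : (cc + ε1) * τ ≤ (cc + ε1) * t := mul_le_mul_of_nonneg_left hτ.2 (by positivity)
      have e9 : ε1 * t ≤ ω / 2 * t := mul_le_mul_of_nonneg_right hε1b ht0.le
      linarith
    · have e7 : ε1 * τ ≤ η0 * τ := mul_le_mul_of_nonneg_right (by linarith) hτ0.le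
      linarith
  have hinit : ∀ y ∈ closedBall x (ρ3 * t), 0 ≤ dx u (-e) t1 y := by
    intro y hy
    rw [mem_closedBall] at hy
    refine hpos t1 le_rfl y hy ?_
    have e1 := hup y
    have e2 := hlow y
    rw [abs_le]
    constructor <;> linarith
  -- the small ball
  have hsmall : ∀ y ∈ closedBall x r0, dist y x ≤ ρ3 * t := fun y hy => (mem_closedBall.1 hy).trans h8
  have hm0 : ∀ y ∈ closedBall x r0,
      Real.exp (-((2 * C9 * η2 + ω' / 16) * t)) ≤ dx u (-e) t1 y := by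
    intro y hy
    have hy' := mem_closedBall.1 hy
    have e1 := hup y
    have e2 := hlow y
    have e3 : |infDist y U - ch * t1| ≤ η2 * t1 + r0 := by
      rw [abs_le]
      constructor <;> linarith
    have e4 : |infDist y U - ch * t1| ≤ η0 * t1 := by
      refine e3.trans ?_
      linarith
    rw [dx_neg]
    refine le_trans (Real.exp_le_exp.2 ?_) (Hl t1 (by linarith) y e (hND y (hsmall y hy)) e4)
    have e5 : C9 * |infDist y U - ch * t1| ≤ C9 * (2 * η2 * t) := by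
      refine mul_le_mul_of_nonneg_left (e3.trans ?_) (by linarith)
      have : η2 * t1 ≤ η2 * t := mul_le_mul_of_nonneg_left ht1t.le hη2.le
      linarith
    have e6 : ω' / 16 * t1 ≤ ω' / 16 * t := mul_le_mul_of_nonneg_left ht1t.le hω1.le
    linarith
  have hVs : ∀ τ ∈ Icc t1 t, ∀ y ∈ closedBall x r0, |pot f u τ y| ≤ ω' / 16 := by
    intro τ hτ y hy
    have hy' := mem_closedBall.1 hy
    have hτ0 : 0 < τ := by linarith [hτ.1]
    have e1 := hup y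
    have e2 := hlow y
    refine hV τ hτ.1 y ?_ ?_
    · have e8 : (cc + ε1) * τ ≤ (cc + ε1) * t := mul_le_mul_of_nonneg_left hτ.2 (by positivity)
      have e9 : ε1 * t ≤ ω / 2 * t := mul_le_mul_of_nonneg_right hε1b ht0.le
      linarith
    · have e3 : r0 ≤ η2 / 2 * t1 := by
        refine h10.trans ?_
        have := mul_le_mul_of_nonneg_left ht1c (by positivity : (0 : ℝ) ≤ η2 / 2)
        linarith
      have e4 : (ch - ε1) * t1 ≤ (ch - ε1) * τ := mul_le_mul_of_nonneg_left hτ.1 (by linarith)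
      have e5 : ε1 * t1 ≤ η2 / 2 * t1 := mul_le_mul_of_nonneg_right hε1a ht10.le
      linarith
  -- continuity
  have hIcc : Icc t1 t ×ˢ (univ : Set (E N)) ⊆ Ioi 0 ×ˢ univ :=
    prod_mono (fun s hs => mem_Ioi.2 (by linarith [hs.1])) (subset_univ _)
  have hzc : ContinuousOn (fun q : ℝ × E N => dx u (-e) q.1 q.2) (Icc t1 t ×ˢ univ) := by
    have := hS.sol.sol.cont_dx.mono hIcc
    exact this.clm_apply continuousOn_const
  have ht11 : 1 ≤ t1 := by linarith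
  have hk0 : 0 < ρ3 / (2 * √N) := by positivity
  obtain ⟨-, H⟩ := hCYL N K C t1 t (ρ3 * t) (ω' / 16) (ρ3 / (2 * √N)) (pot f u) (dx u (-e)) x hS.N1
    hPt (hVc.mono hIcc) ((hLin t1 t ht10 ht1t).1 (-e)) hzc ht1t (by positivity) hk0 hω1.le hC0
    (fun τ hτ y => (abs_dx_le u hDir.unit τ y).trans (hC τ (by linarith [hτ.1]) y).1) hsign hinit
  have H2 := H κ' (Real.exp (-((2 * C9 * η2 + ω' / 16) * t))) hκ' (by rw [← hr0]; exact h8)
    (Real.exp_pos _).le (by rw [← hr0]; exact hm0) (by rw [← hr0]; exact hVs)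
  rw [dx_neg] at H2
  refine le_trans ?_ H2
  -- final estimate
  have hsq : √(N : ℝ) * √N = N := Real.mul_self_sqrt hN0.le
  have hsN : 0 < √(N : ℝ) := Real.sqrt_pos.2 hN0
  have g1 : Real.exp (-(ω' / 4 * t)) ≤ Real.exp (-((2 * C9 * η2 + ω' / 16) * t)) *
      Real.exp (-((N * κ' ^ 2 + ω' / 16) * (t - t1))) := by
    rw [← Real.exp_add]
    refine Real.exp_le_exp.2 ?_
    have e1 : (N * κ' ^ 2 + ω' / 16) * (t - t1) ≤ (N * κ' ^ 2 + ω' / 16) * t :=
      mul_le_mul_of_nonneg_left (by linarith) (by positivity)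
    have e2 : (2 * C9 * η2) * t ≤ ω' / 16 * t := mul_le_mul_of_nonneg_right hη2C ht0.le
    have e3 : (N * κ' ^ 2) * t ≤ ω' / 16 * t := mul_le_mul_of_nonneg_right hκ'N ht0.le
    linarith
  have g2 : ((ρ3 / (2 * √N)) ^ 2 + ω' / 16) * (t - t1) - ρ3 / (2 * √N) * (ρ3 * t) / √N ≤
      -(3 * ω' * t) := by
    have e1 : (ρ3 / (2 * √(N : ℝ))) ^ 2 = ρ3 ^ 2 / (4 * N) := by
      rw [div_pow, mul_pow, Real.sq_sqrt hN0.le]; norm_num
    have e2 : ρ3 / (2 * √(N : ℝ)) * (ρ3 * t) / √N = ρ3 ^ 2 / (4 * N) * (2 * t) := by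
      rw [div_mul_eq_mul_div, div_div, mul_assoc 2, hsq]
      field_simp
      ring
    rw [e1, e2]
    have e3 : 4 * ω' ≤ ρ3 ^ 2 / (4 * N) := by
      rw [le_div_iff₀ (by positivity)]
      linarith
    have e4 : (ρ3 ^ 2 / (4 * N) + ω' / 16) * (t - t1) ≤ (ρ3 ^ 2 / (4 * N) + ω' / 16) * t :=
      mul_le_mul_of_nonneg_left (by linarith) (by positivity)
    have e5 := mul_le_mul_of_nonneg_right e3 ht0.le
    have e6 : 0 ≤ ω' * t := by positivity
    linarith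
  have g3 : 1 + 2 * N * C ≤ Real.exp (3 * ω' / 4 * t) := by
    have e1 : 0 < 1 + 2 * N * C := by positivity
    calc 1 + 2 * N * C = Real.exp (Real.log (1 + 2 * N * C)) := (Real.exp_log e1).symm
      _ ≤ _ := Real.exp_le_exp.2 h12
  have g4 : Real.exp (-(ω' * t)) + 2 * N * C * Real.exp (-(3 * ω' * t)) ≤
      Real.exp (-(ω' / 4 * t)) := by
    have e1 : Real.exp (-(ω' / 4 * t)) = Real.exp (-(ω' * t)) * Real.exp (3 * ω' / 4 * t) := by
      rw [← Real.exp_add]; congr 1; ring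
    have e2 : Real.exp (-(3 * ω' * t)) ≤ Real.exp (-(ω' * t)) :=
      Real.exp_le_exp.2 (by linarith [mul_pos hω' ht0])
    have e3 : 0 ≤ 2 * N * C := by positivity
    have e4 := mul_le_mul_of_nonneg_left e2 e3
    have e5 := mul_le_mul_of_nonneg_left g3 (Real.exp_pos (-(ω' * t))).le
    rw [e1]
    linarith
  have g5 : Real.exp (-(ω0 * t)) ≤ Real.exp (-(ω' * t)) :=
    Real.exp_le_exp.2 (by linarith [mul_le_mul_of_nonneg_right hω'0 ht0.le])
  have g6 := mul_le_mul_of_nonneg_left (Real.exp_le_exp.2 g2) (by positivity : 0 ≤ 2 * N * C)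
  linarith

end Pool.Agent.H67.RF.STP
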